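import Pool.Agent.helper17.EXC.Spec

set_option autoImplicit false

open Finset

namespace Pool.Agent.EXC

theorem KND_a {F : Type} [Field F] (s1 s2 : F) (h1 : s1 ≠ 0) (h2 : s2 ≠ 0) :
    Cl (!![0, s2; s1, s1 * s2] : Matrix (Fin 2) (Fin 2) F)
      ((1 + Matrix.single (1 : Fin 6) (0 : Fin 6) s1) * (1 + Matrix.single 0 1 s2)) := by
  refine ⟨!![1, 0; 0, 1; 0, 0; 0, 0; 0, 0; 0, 0], !![0, s2, 0, 0, 0, 0; s1, s1 * s2, 0, 0, 0, 0],
    ⟨!![1, 0, 0, 0, 0, 0; 0, 1, 0, 0, 0, 0], ?_⟩, ⟨!![-1, s1⁻¹; s2⁻¹, 0; 0, 0; 0, 0; 0, 0; 0, 0], ?_⟩, ?_, ?_⟩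
  · ext i j
    fin_cases i <;> fin_cases j <;> simp [Matrix.mul_apply, Fin.sum_univ_succ]
  · ext i j
    fin_cases i <;> fin_cases j <;> simp [Matrix.mul_apply, Fin.sum_univ_succ, h1, h2]
  · ext i j
    fin_cases i <;> fin_cases j <;> simp [Matrix.mul_apply, Fin.sum_univ_succ]
  · ext i j
    fin_cases i <;> fin_cases j <;>
      simp [Matrix.mul_apply, Matrix.add_apply, Matrix.one_apply, Matrix.single_apply, Fin.sum_univ_succ]
    ring

theorem KND_b {F : Type} [Field F] (s1 s2 : F) (h1 : s1 ≠ 0) (h2 : s2 ≠ 0) :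
    Cl (!![0, s2; 0, 0] : Matrix (Fin 2) (Fin 2) F)
      ((1 + Matrix.single (1 : Fin 6) (2 : Fin 6) s1) * (1 + Matrix.single 0 1 s2)) := by
  refine ⟨!![1, 0; 0, 1; 0, 0; 0, 0; 0, 0; 0, 0], !![0, s2, 0, 0, 0, 0; 0, 0, s1, 0, 0, 0],
    ⟨!![1, 0, 0, 0, 0, 0; 0, 1, 0, 0, 0, 0], ?_⟩, ⟨!![0, 0; s2⁻¹, 0; 0, s1⁻¹; 0, 0; 0, 0; 0, 0], ?_⟩, ?_, ?_⟩
  · ext i j
    fin_cases i <;> fin_cases j <;> simp [Matrix.mul_apply, Fin.sum_univ_succ]
  · ext i j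
    fin_cases i <;> fin_cases j <;> simp [Matrix.mul_apply, Fin.sum_univ_succ, h1, h2]
  · ext i j
    fin_cases i <;> fin_cases j <;> simp [Matrix.mul_apply, Fin.sum_univ_succ]
  · ext i j
    fin_cases i <;> fin_cases j <;>
      simp [Matrix.mul_apply, Matrix.add_apply, Matrix.one_apply, Matrix.single_apply, Fin.sum_univ_succ]

theorem KND_c {F : Type} [Field F] (s1 s2 : F) (h1 : s1 ≠ 0) (h2 : s2 ≠ 0) :
    Cl (0 : Matrix (Fin 2) (Fin 2) F)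
      ((1 + Matrix.single (2 : Fin 6) (3 : Fin 6) s1) * (1 + Matrix.single 0 1 s2)) := by
  refine ⟨!![1, 0; 0, 0; 0, 1; 0, 0; 0, 0; 0, 0], !![0, s2, 0, 0, 0, 0; 0, 0, 0, s1, 0, 0],
    ⟨!![1, 0, 0, 0, 0, 0; 0, 0, 1, 0, 0, 0], ?_⟩, ⟨!![0, 0; s2⁻¹, 0; 0, 0; 0, s1⁻¹; 0, 0; 0, 0], ?_⟩, ?_, ?_⟩
  · ext i j
    fin_cases i <;> fin_cases j <;> simp [Matrix.mul_apply, Fin.sum_univ_succ]
  · ext i j
    fin_cases i <;> fin_cases j <;> simp [Matrix.mul_apply, Fin.sum_univ_succ, h1, h2]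
  · ext i j
    fin_cases i <;> fin_cases j <;> simp [Matrix.mul_apply, Fin.sum_univ_succ]
  · ext i j
    fin_cases i <;> fin_cases j <;>
      simp [Matrix.mul_apply, Matrix.add_apply, Matrix.one_apply, Matrix.single_apply, Fin.sum_univ_succ]

theorem KND : KND_stmt := by
  intro F _
  refine ⟨?_, ?_⟩
  · intro s1 s2 c d h1 h2 hcd
    rcases hcd with ⟨rfl, rfl⟩ | ⟨rfl, rfl⟩ | ⟨rfl, rfl⟩
    · refine ⟨_, ?_, Or.inr ?_, KND_a s1 s2 h1 h2⟩
      · rw [Matrix.det_fin_two]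
        simp [Matrix.one_apply]
        ring
      · intro e he
        have := congrFun (congrFun he 0) 1
        simp at this
        exact h2 this
    · refine ⟨_, ?_, Or.inr ?_, KND_b s1 s2 h1 h2⟩
      · rw [Matrix.det_fin_two]
        simp [Matrix.one_apply]
      · intro e he
        have := congrFun (congrFun he 0) 1
        simp at this
        exact h2 this
    · refine ⟨_, ?_, Or.inl rfl, KND_c s1 s2 h1 h2⟩
      simp
  · intro N h h' y hh hy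
    obtain ⟨V, Φ, ⟨V', hV⟩, ⟨Φ', hΦ⟩, hN, hy⟩ := hy
    have hh' : h' * h = 1 := by
      exact mul_eq_one_comm.1 hh
    refine ⟨V * h', h * Φ, ⟨h * V', ?_⟩, ⟨Φ' * h', ?_⟩, ?_, ?_⟩
    · calc h * V' * (V * h') = h * (V' * V) * h' := by simp only [Matrix.mul_assoc]
        _ = 1 := by rw [hV, Matrix.mul_one, hh]
    · calc h * Φ * (Φ' * h') = h * (Φ * Φ') * h' := by simp only [Matrix.mul_assoc]
        _ = 1 := by rw [hΦ, Matrix.mul_one, hh]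
    · calc h * Φ * (V * h') = h * (Φ * V) * h' := by simp only [Matrix.mul_assoc]
        _ = h * N * h' := by rw [hN]
    · rw [hy]
      congr 1
      calc V * Φ = V * (h' * h) * Φ := by rw [hh', Matrix.mul_one]
        _ = V * h' * (h * Φ) := by simp only [Matrix.mul_assoc]

end Pool.Agent.EXC
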