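import Pool.Agent.helper17.EXC.Spec

set_option autoImplicit false

open Finset

namespace Pool.Agent.EXC

theorem LS2_det {F : Type} [Field F] (M : Matrix (Fin 2) (Fin 2) F) (u : Fin 2 → F) (hu : u ≠ 0)
    (h : Matrix.vecMul u M = 0) : M.det = 0 := by
  rw [← Matrix.det_transpose]
  apply Matrix.exists_mulVec_eq_zero_iff.1
  exact ⟨u, hu, by rw [Matrix.mulVec_transpose]; exact h⟩

theorem LS2_core (hFL0 : FL0_stmt) (hE2C : E2C_stmt) (hRBC : RBC_stmt) (hKND : KND_stmt) (hEIG : EIG_stmt)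
    (F K : Type) [Field F] [Finite F] [Field K] [Algebra F K] [IsAlgClosed K] (r : ℕ) (hr : r.Prime)
    (hrq : ¬ r ∣ Nat.card F) (hr4 : r ∣ Nat.card F ^ 4 - 1) (N : Matrix (Fin 2) (Fin 2) F) (hN : (1 + N).det = 1) :
    ∃ y1 y2 : Matrix (Fin 6) (Fin 6) F, Cl N y1 ∧ Cl N y2 ∧ NSc r (y1 * y2) := by
  obtain ⟨⟨ζ, hζ⟩, hfix, hadd, -⟩ := hFL0 F K r hr hrq
  set q := Nat.card F with hq
  have hr2 := hr.two_le
  have hζ0 : ζ ≠ 0 := hζ.ne_zero (by omega)
  have hq1 : 1 ≤ q := Nat.card_pos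
  have hζ1 : ζ ≠ 1 := hζ.ne_one (by omega)
  have halg : ∀ c : F, (algebraMap F K c) ^ q = algebraMap F K c := by
    intro c
    have : Fintype F := Fintype.ofFinite F
    rw [← map_pow, hq, Nat.card_eq_fintype_card, FiniteField.pow_card]
  -- ζ ^ q²
  have hdiv : r ∣ q ^ 2 - 1 ∨ r ∣ q ^ 2 + 1 := by
    have e : q ^ 4 - 1 = (q ^ 2 - 1) * (q ^ 2 + 1) := by
      have h1 : 1 ≤ q ^ 2 := Nat.one_le_pow _ _ hq1
      obtain ⟨k, hk⟩ := Nat.exists_eq_add_of_le h1
      have h4 : q ^ 4 = (q ^ 2) ^ 2 := by ring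
      rw [h4, hk]
      have : (1 + k) ^ 2 - 1 = k * (1 + k + 1) := by
        have : (1 + k) ^ 2 = k * (1 + k + 1) + 1 := by ring
        omega
      rw [this]
      congr 1
      omega
    rw [e] at hr4
    exact (Nat.Prime.dvd_mul hr).1 hr4
  set t : K := ζ + ζ⁻¹ with ht
  have ht2 : (t ^ q) ^ q = t := by
    rw [ht, hadd, hadd]
    have h1 : (ζ ^ q) ^ q = ζ ^ (q ^ 2) := by rw [← pow_mul, sq]
    have h2 : ((ζ⁻¹) ^ q) ^ q = (ζ ^ (q ^ 2))⁻¹ := by rw [← h1, inv_pow, inv_pow]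
    rw [h1, h2]
    rcases hdiv with h | h
    · have h3 : ζ ^ (q ^ 2) = ζ := by
        have h4 : 1 ≤ q ^ 2 := Nat.one_le_pow _ _ hq1
        have h5 : ζ ^ (q ^ 2 - 1) = 1 := (hζ.pow_eq_one_iff_dvd _).2 h
        calc ζ ^ (q ^ 2) = ζ ^ (q ^ 2 - 1 + 1) := by rw [Nat.sub_add_cancel h4]
          _ = ζ := by rw [pow_succ, h5, one_mul]
      rw [h3]
    · have h3 : ζ ^ (q ^ 2) = ζ⁻¹ := by
        have h5 : ζ ^ (q ^ 2 + 1) = 1 := (hζ.pow_eq_one_iff_dvd _).2 h
        rw [pow_succ] at h5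
        exact eq_inv_of_mul_eq_one_left h5
      rw [h3, inv_inv, add_comm]
  obtain ⟨s, hs⟩ := hfix (t + t ^ q) (by rw [hadd, ht2, add_comm])
  obtain ⟨d, hd⟩ := hfix (t * t ^ q) (by rw [mul_pow, ht2, mul_comm])
  set E : Matrix (Fin 2) (Fin 2) F := 1 + N with hE
  have hE1 : E - 1 = N := by rw [hE]; abel
  set R : Matrix (Fin 2) (Fin 2) F := !![s, -d; 1, 0] with hR
  set N2 : Matrix (Fin 2) (Fin 2) F := R - E.trace • (1 : Matrix (Fin 2) (Fin 2) F) with hN2
  refine ⟨rb 0 ![E - 1, N2, 0], rb 1 ![1, E.adjugate - 1, 0], ?_, ?_, ?_⟩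
  · have hcl := hRBC F 0 ![E - 1, N2, 0] (by
      intro u hu
      by_contra hne
      have h0 : Matrix.vecMul u (E - 1) = 0 := hu 0
      have h1 : Matrix.vecMul u N2 = 0 := hu 1
      have d0 := LS2_det _ u hne h0
      have d1 := LS2_det _ u hne h1
      have htr : E.trace = 2 := by
        rw [Matrix.det_fin_two] at d0 hN
        rw [Matrix.trace_fin_two]
        simp only [Matrix.sub_apply, Matrix.one_apply_eq, Matrix.one_apply_ne (show (0 : Fin 2) ≠ 1 by decide),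
          Matrix.one_apply_ne (show (1 : Fin 2) ≠ 0 by decide), sub_zero] at d0
        linear_combination hN - d0
      rw [hN2, htr, Matrix.det_fin_two] at d1
      have d2 : (s - 2) * (0 - 2) - (-d) * 1 = 0 := by
        simpa [hR] using d1
      have d3 : (t - 2) * (t ^ q - 2) = 0 := by
        have h3 := congrArg (algebraMap F K) d2
        rw [map_sub, map_mul, map_mul, map_sub, map_sub, map_neg, map_zero, map_one, map_ofNat, ← hs, ← hd] at h3
        linear_combination h3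
      have ht2' : t = 2 := by
        rcases mul_eq_zero.1 d3 with h | h
        · exact sub_eq_zero.1 h
        · have h4 : t ^ q = 2 := sub_eq_zero.1 h
          rw [← ht2, h4]
          have h5 := halg 2
          rwa [map_ofNat] at h5
      apply hζ1
      have h6 : (ζ - 1) ^ 2 = 0 := by
        have h7 : ζ * t = ζ * 2 := by rw [ht2']
        rw [ht, mul_add, mul_inv_cancel₀ hζ0] at h7
        linear_combination h7
      exact sub_eq_zero.1 (pow_eq_zero_iff (two_ne_zero)|>.1 h6))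
    have e0 : (![E - 1, N2, 0] : Fin 3 → Matrix (Fin 2) (Fin 2) F) 0 = N := hE1
    rw [e0] at hcl
    exact hcl
  · have hcl := hRBC F 1 ![1, E.adjugate - 1, 0] (by
      intro u hu
      have h0 : Matrix.vecMul u 1 = 0 := hu 0
      rwa [Matrix.vecMul_one] at h0)
    have e0 : (![1, E.adjugate - 1, 0] : Fin 3 → Matrix (Fin 2) (Fin 2) F) 1 = E.adjugate - 1 := rfl
    rw [e0] at hcl
    obtain ⟨h, h', hh, hh', hadj⟩ := (hE2C F).1 E hN
    have hcl2 := (hKND F).2 _ h' h _ hh' hcl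
    have e1 : h' * (E.adjugate - 1) * h = N := by
      rw [hadj, mul_sub, sub_mul, mul_one, hh', ← hE1]
      congr 1
      calc h' * (h * E * h') * h = (h' * h) * E * (h' * h) := by simp only [Matrix.mul_assoc]
        _ = E := by rw [hh', Matrix.one_mul, Matrix.mul_one]
    rw [e1] at hcl2
    exact hcl2
  · intro m hm
    obtain ⟨c, hc⟩ := hm
    have hw : (![t, 1] : Fin 2 → K) ≠ 0 := by
      intro h
      have := congrFun h 1
      simp at this
    have hE2 := (hEIG F K E N2 0 ζ ![t, 1] 0 hN hζ0 hw).2 (by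
      ext i
      rw [hN2]
      fin_cases i
      · simp [Matrix.mulVec, dotProduct, Fin.sum_univ_two, hR]
        linear_combination (t) * hs - hd
      · simp [Matrix.mulVec, dotProduct, Fin.sum_univ_two, hR]
        rw [ht]
        ring) m c hc
    exact (hζ.pow_eq_one_iff_dvd _).1 hE2

theorem LS2 (hFL0 : FL0_stmt) (hE2C : E2C_stmt) (hRBC : RBC_stmt) (hKND : KND_stmt) (hEIG : EIG_stmt) : LS2_stmt := by
  intro F _ _ r hr hrq hr4 N hN
  exact LS2_core hFL0 hE2C hRBC hKND hEIG F (AlgebraicClosure F) r hr hrq hr4 N hN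

end Pool.Agent.EXC
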