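import Pool.Agent.helper17.EXC.Spec

set_option autoImplicit false

open Finset

namespace Pool.Agent.EXC

theorem RBC_sum {F : Type} [Field F] (i : Fin 3) (c : Fin 2) (f : Fin 6 → F) (g : Fin 3 → Fin 2 → F)
    (h : ∀ q, f q = g (bk q) (pl q)) :
    ∑ q : Fin 6, f q * (if bk q = i ∧ pl q = c then 1 else 0) = g i c := by
  have b0 : bk 0 = 0 := rfl
  have b1 : bk 1 = 0 := rfl
  have b2 : bk 2 = 1 := rfl
  have b3 : bk 3 = 1 := rfl
  have b4 : bk 4 = 2 := rfl
  have b5 : bk 5 = 2 := rfl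
  have p0 : pl 0 = 0 := rfl
  have p1 : pl 1 = 1 := rfl
  have p2 : pl 2 = 0 := rfl
  have p3 : pl 3 = 1 := rfl
  have p4 : pl 4 = 0 := rfl
  have p5 : pl 5 = 1 := rfl
  simp only [h, Fin.sum_univ_six, b0, b1, b2, b3, b4, b5, p0, p1, p2, p3, p4, p5]
  fin_cases i <;> fin_cases c <;> simp

theorem RBC_inv {F : Type} [Field F] (Φ : Matrix (Fin 2) (Fin 6) F)
    (h : ∀ u : Fin 2 → F, Matrix.vecMul u Φ = 0 → u = 0) : ∃ Φ' : Matrix (Fin 6) (Fin 2) F, Φ * Φ' = 1 := by
  have hinj : LinearMap.ker (Matrix.toLin' Φ.transpose) = ⊥ := by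
    rw [LinearMap.ker_eq_bot']
    intro u hu
    apply h
    rw [Matrix.toLin'_apply, Matrix.mulVec_transpose] at hu
    exact hu
  obtain ⟨g, hg⟩ := LinearMap.exists_leftInverse_of_injective _ hinj
  refine ⟨(LinearMap.toMatrix' g).transpose, ?_⟩
  have h1 : LinearMap.toMatrix' g * Φ.transpose = 1 := by
    have := congrArg LinearMap.toMatrix' hg
    rw [LinearMap.toMatrix'_comp, LinearMap.toMatrix'_toLin', LinearMap.toMatrix'_id] at this
    exact this
  have h2 := congrArg Matrix.transpose h1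
  rw [Matrix.transpose_mul, Matrix.transpose_transpose, Matrix.transpose_one] at h2
  exact h2

theorem RBC : RBC_stmt := by
  intro F _ i A hA
  refine ⟨Matrix.of fun p c => if bk p = i ∧ pl p = c then 1 else 0, Matrix.of fun c q => A (bk q) c (pl q),
    ⟨Matrix.of fun c p => if bk p = i ∧ pl p = c then 1 else 0, ?_⟩, RBC_inv _ ?_, ?_, ?_⟩
  · ext c c'
    rw [Matrix.mul_apply]
    simp only [Matrix.of_apply]
    rw [RBC_sum i c' (fun p => if bk p = i ∧ pl p = c then 1 else 0) (fun a b => if a = i ∧ b = c then 1 else 0)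
      (fun q => rfl), Matrix.one_apply]
    simp [eq_comm]
  · intro u hu
    apply hA
    intro j
    ext d
    obtain ⟨q, hq, hq'⟩ : ∃ q : Fin 6, bk q = j ∧ pl q = d := by
      revert j d
      decide
    have := congrFun hu q
    rw [← hq, ← hq']
    exact this
  · ext c c'
    rw [Matrix.mul_apply]
    simp only [Matrix.of_apply]
    exact RBC_sum i c' (fun q => A (bk q) c (pl q)) (fun a b => A a c b) (fun q => rfl)
  · rw [rb]
    congr 1
    ext p q
    rw [Matrix.mul_apply]
    simp only [Matrix.of_apply]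
    by_cases hp : bk p = i
    · rw [if_pos hp, Fin.sum_univ_two]
      rcases Fin.exists_fin_two.1 ⟨pl p, rfl⟩ with h | h
      · simp [hp, h]
      · simp [hp, h]
    · rw [if_neg hp]
      simp [hp]

end Pool.Agent.EXC
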